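import Pool.Agent.PCF.Ind39

/-! # Proper conflict-free colouring when the vertices of large degree form cliques -/

set_option autoImplicit false

namespace Pool.Agent.Results.MP_f0af69_co.HalfDegree

/-- Let `G` be a finite graph with maximum degree `Δ` and lists `L v` such that either (1) every induced
path on three vertices contains a vertex of degree at most `Δ/2` and all lists have at least `Δ + 1`
colours, or (2) for some vertex set `X` inducing a disjoint union of complete graphs, `L v` has more
than `deg v` colours for `v` in `X` and more than `2 deg v` colours for `v` not in `X`. Then `G` has a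
proper colouring from these lists such that every vertex with a neighbour has a colour which occurs
exactly once among its neighbours. -/
theorem result {V α : Type} [Fintype V] [DecidableEq V] [DecidableEq α] (G : SimpleGraph V)
    [DecidableRel G.Adj] (L : V → Finset α)
    (h : ((∀ u v w, G.Adj u v → G.Adj v w → u ≠ w → ¬ G.Adj u w →
          2 * G.degree u ≤ G.maxDegree ∨ 2 * G.degree v ≤ G.maxDegree ∨
            2 * G.degree w ≤ G.maxDegree) ∧
        ∀ v, G.maxDegree + 1 ≤ (L v).card) ∨
      ∃ X : Set V, (∀ u ∈ X, ∀ v ∈ X, ∀ w ∈ X, G.Adj u v → G.Adj v w → u ≠ w → G.Adj u w) ∧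
        (∀ v ∈ X, G.degree v < (L v).card) ∧ ∀ v, v ∉ X → 2 * G.degree v < (L v).card) :
    ∃ c : V → α, (∀ v, c v ∈ L v) ∧ (∀ u v, G.Adj u v → c u ≠ c v) ∧
      ∀ v, 0 < G.degree v →
        ∃ k, (Finset.filter (fun w => c w = k) (G.neighborFinset v)).card = 1 := by
  rcases h with ⟨h, hL⟩ | ⟨X, hX, h1, h2⟩
  · exact PCF39.half39 G h L hL
  · exact PCF39.cliques39 G X hX L h1 h2

end Pool.Agent.Results.MP_f0af69_co.HalfDegree
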